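import Mathlib

set_option autoImplicit false

namespace Pool.Agent.P.MP_4f9fa7_an

variable (X : Type) [NormedAddCommGroup X] [NormedSpace ℝ X]

/-- `y` is quasi-orthogonal to the unit vector `x`: some norm-one functional `p` with
`p x = 1` vanishes at `y`. -/
def QuasiOrth (x y : X) : Prop :=
  ∃ p : X →L[ℝ] ℝ, ‖p‖ = 1 ∧ p x = 1 ∧ p y = 0

/-- The modulus zeta-minus. -/
noncomputable def zetaMinus (ε : ℝ) : ℝ :=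
  sInf {t : ℝ | ∃ x y : X, ‖x‖ = 1 ∧ ‖y‖ = 1 ∧ QuasiOrth X x y ∧ t = ‖x + ε • y‖}

/-- The modulus zeta-plus. -/
noncomputable def zetaPlus (ε : ℝ) : ℝ :=
  sSup {t : ℝ | ∃ x y : X, ‖x‖ = 1 ∧ ‖y‖ = 1 ∧ QuasiOrth X x y ∧ t = ‖x + ε • y‖}

/-- Milman modulus beta-minus. -/
noncomputable def betaMinus (ε : ℝ) : ℝ :=
  sInf {t : ℝ | ∃ x y : X, ‖x‖ = 1 ∧ ‖y‖ = 1 ∧ t = max ‖x + ε • y‖ ‖x - ε • y‖ - 1}

/-- Milman modulus beta-plus. -/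
noncomputable def betaPlus (ε : ℝ) : ℝ :=
  sSup {t : ℝ | ∃ x y : X, ‖x‖ = 1 ∧ ‖y‖ = 1 ∧ t = min ‖x + ε • y‖ ‖x - ε • y‖ - 1}

end Pool.Agent.P.MP_4f9fa7_an
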