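import Mathlib
import Pool.Agent.P.MP_4f9fa7_an.Defs

set_option autoImplicit false

namespace Pool.Agent.P.MP_4f9fa7_an

section general
variable (X : Type) [NormedAddCommGroup X] [NormedSpace ℝ X]

theorem zetaMinus_le (ε : ℝ) (x y : X) (hx : ‖x‖ = 1) (hy : ‖y‖ = 1) (h : QuasiOrth X x y) :
    zetaMinus X ε ≤ ‖x + ε • y‖ := by
  refine csInf_le ⟨0, ?_⟩ ⟨x, y, hx, hy, h, rfl⟩
  rintro t ⟨x, y, -, -, -, rfl⟩
  exact norm_nonneg _

theorem le_zetaPlus (ε : ℝ) (x y : X) (hx : ‖x‖ = 1) (hy : ‖y‖ = 1) (h : QuasiOrth X x y) :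
    ‖x + ε • y‖ ≤ zetaPlus X ε := by
  refine le_csSup ⟨1 + |ε|, ?_⟩ ⟨x, y, hx, hy, h, rfl⟩
  rintro t ⟨x, y, hx, hy, -, rfl⟩
  calc ‖x + ε • y‖ ≤ ‖x‖ + ‖ε • y‖ := norm_add_le _ _
    _ = 1 + |ε| := by rw [norm_smul, hx, hy, Real.norm_eq_abs, mul_one]

theorem le_betaMinus (ε c : ℝ) (x₀ : X) (h₀ : ‖x₀‖ = 1)
    (h : ∀ x y : X, ‖x‖ = 1 → ‖y‖ = 1 → c ≤ max ‖x + ε • y‖ ‖x - ε • y‖ - 1) :
    c ≤ betaMinus X ε := by
  refine le_csInf ⟨_, x₀, x₀, h₀, h₀, rfl⟩ ?_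
  rintro t ⟨x, y, hx, hy, rfl⟩
  exact h x y hx hy

theorem betaPlus_le (ε c : ℝ) (x₀ : X) (h₀ : ‖x₀‖ = 1)
    (h : ∀ x y : X, ‖x‖ = 1 → ‖y‖ = 1 → min ‖x + ε • y‖ ‖x - ε • y‖ - 1 ≤ c) :
    betaPlus X ε ≤ c := by
  refine csSup_le ⟨_, x₀, x₀, h₀, h₀, rfl⟩ ?_
  rintro t ⟨x, y, hx, hy, rfl⟩
  exact h x y hx hy

theorem quasiOrth_of (x y : X) (hx : ‖x‖ = 1) (p : X →L[ℝ] ℝ) (hp : ∀ v, ‖p v‖ ≤ ‖v‖)
    (h1 : p x = 1) (h0 : p y = 0) : QuasiOrth X x y := by
  refine ⟨p, le_antisymm (p.opNorm_le_bound zero_le_one (by simpa using hp)) ?_, h1, h0⟩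
  have := p.le_opNorm x
  rwa [h1, hx, mul_one, norm_one] at this

end general

/-! The hexagonal plane. -/

/-- sum of the three coordinates -/
noncomputable def sum3 : (ℝ × ℝ × ℝ) →ₗ[ℝ] ℝ :=
  LinearMap.fst ℝ ℝ (ℝ × ℝ) + (LinearMap.fst ℝ ℝ ℝ + LinearMap.snd ℝ ℝ ℝ) ∘ₗ LinearMap.snd ℝ ℝ (ℝ × ℝ)

theorem sum3_apply (v : ℝ × ℝ × ℝ) : sum3 v = v.1 + (v.2.1 + v.2.2) := rfl

/-- the hexagonal plane -/
abbrev Hex : Type := LinearMap.ker sum3

theorem finrank_Hex : Module.finrank ℝ Hex = 2 := by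
  have h : sum3 ≠ 0 := by
    intro h
    have := congrArg (fun f : (ℝ × ℝ × ℝ) →ₗ[ℝ] ℝ => f (1, 0, 0)) h
    simp [sum3_apply] at this
  have := Module.Dual.finrank_ker_add_one_of_ne_zero h
  simp only [Module.finrank_prod, Module.finrank_self] at this
  unfold Hex
  omega

theorem norm_Hex (v : Hex) : ‖v‖ = max |v.1.1| (max |v.1.2.1| |v.1.2.2|) := rfl

theorem hex_plus (ε : ℝ) (hε : 0 < ε) : betaPlus Hex ε < zetaPlus Hex ε - 1 := by
  let x : Hex := ⟨(1, -1, 0), by simp [sum3_apply]⟩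
  let y : Hex := ⟨(0, -1, 1), by simp [sum3_apply]⟩
  have hx : ‖x‖ = 1 := by simp [norm_Hex, x]
  have hy : ‖y‖ = 1 := by simp [norm_Hex, y]
  have hq : QuasiOrth Hex x y := by
    refine quasiOrth_of Hex x y hx
      ((ContinuousLinearMap.fst ℝ ℝ (ℝ × ℝ)).comp (LinearMap.ker sum3).subtypeL) ?_ rfl rfl
    intro v
    rw [norm_Hex]
    exact le_max_left _ _
  have h1 : 1 + ε ≤ zetaPlus Hex ε := by
    refine le_trans ?_ (le_zetaPlus Hex ε x y hx hy hq)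
    rw [norm_Hex]
    refine le_trans ?_ (le_max_of_le_right (le_max_left _ _))
    have : (x + ε • y : Hex).1.2.1 = -(1 + ε) := by
      simp [x, y]; ring
    rw [this, abs_neg]
    exact le_abs_self _
  have h2 : betaPlus Hex ε ≤ ε - min 1 ε / 2 := by
    refine betaPlus_le Hex ε _ x hx ?_
    rintro ⟨⟨a, b, c⟩, habc⟩ ⟨⟨a', b', c'⟩, habc'⟩ hu hv
    rw [norm_Hex] at hu hv
    simp only [LinearMap.mem_ker, sum3_apply] at habc habc'
    have ha : |a| ≤ 1 := hu ▸ le_max_left _ _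
    have hb : |b| ≤ 1 := hu ▸ le_max_of_le_right (le_max_left _ _)
    have hc : |c| ≤ 1 := hu ▸ le_max_of_le_right (le_max_right _ _)
    have ha' : |a'| ≤ 1 := hv ▸ le_max_left _ _
    have hb' : |b'| ≤ 1 := hv ▸ le_max_of_le_right (le_max_left _ _)
    have hc' : |c'| ≤ 1 := hv ▸ le_max_of_le_right (le_max_right _ _)
    have key : ∀ t : ℝ, |t| ≤ 1 → -ε ≤ ε * t ∧ ε * t ≤ ε := by
      intro t ht
      rw [abs_le] at ht
      constructor <;> nlinarith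
    have hs : ε * a' + (ε * b' + ε * c') = 0 := by
      have : ε * (a' + (b' + c')) = 0 := by rw [habc', mul_zero]
      linarith
    obtain ⟨a1, a2⟩ := key a' ha'
    obtain ⟨b1, b2⟩ := key b' hb'
    obtain ⟨c1, c2⟩ := key c' hc'
    rw [abs_le] at ha hb hc
    have m1 : min 1 ε ≤ 1 := min_le_left _ _
    have m2 : min 1 ε ≤ ε := min_le_right _ _
    rw [norm_Hex, norm_Hex]
    simp only [Submodule.coe_add, Submodule.coe_sub, Submodule.coe_smul, Prod.smul_mk,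
      Prod.mk_add_mk, Prod.mk_sub_mk, smul_eq_mul]
    generalize ε * a' = A at *
    generalize ε * b' = B at *
    generalize ε * c' = C at *
    generalize min 1 ε = m at *
    by_contra hcon
    rw [not_le, lt_sub_iff_add_lt, lt_min_iff] at hcon
    obtain ⟨h1, h2⟩ := hcon
    simp only [lt_max_iff, lt_abs] at h1 h2
    obtain ⟨ha1, ha2⟩ := ha
    obtain ⟨hb1, hb2⟩ := hb
    obtain ⟨hc1, hc2⟩ := hc
    rcases h1 with (h1 | h1) | (h1 | h1) | (h1 | h1) <;>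
      rcases h2 with (h2 | h2) | (h2 | h2) | (h2 | h2) <;> linarith
  have : 0 < min 1 ε := lt_min one_pos hε
  linarith

/-! The disc cut by a strip. -/

/-- the functional whose kernel is the plane with unit ball a disc cut by a strip -/
noncomputable def stripF (a : ℝ) : (ℂ × ℝ) →ₗ[ℝ] ℝ :=
  Complex.reLm ∘ₗ LinearMap.fst ℝ ℂ ℝ - a • LinearMap.snd ℝ ℂ ℝ

theorem stripF_apply (a : ℝ) (v : ℂ × ℝ) : stripF a v = v.1.re - a * v.2 := rfl

/-- the plane with unit ball a disc cut by a strip -/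
abbrev Strip (a : ℝ) : Type := LinearMap.ker (stripF a)

theorem finrank_Strip (a : ℝ) : Module.finrank ℝ (Strip a) = 2 := by
  have h : stripF a ≠ 0 := by
    intro h
    have := congrArg (fun f : (ℂ × ℝ) →ₗ[ℝ] ℝ => f (1, 0)) h
    simp [stripF_apply] at this
  have := Module.Dual.finrank_ker_add_one_of_ne_zero h
  simp only [Module.finrank_prod, Module.finrank_self, Complex.finrank_real_complex] at this
  unfold Strip
  omega

theorem norm_Strip (a : ℝ) (v : Strip a) : ‖v‖ = max ‖v.1.1‖ |v.1.2| := rfl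

theorem strip_unit (a : ℝ) : ∃ y : Strip a, ‖y‖ = 1 :=
  ⟨⟨(Complex.I, 0), by simp [stripF_apply]⟩, by simp [norm_Strip]⟩

theorem strip_zeta (a b ε M : ℝ) (hab : a ^ 2 + b ^ 2 = 1) (hM : 1 ≤ M)
    (h : a ^ 2 + (ε - b) ^ 2 ≤ M ^ 2) : zetaMinus (Strip a) ε ≤ M := by
  let x : Strip a := ⟨(⟨a, -b⟩, 1), by simp [stripF_apply]⟩
  let y : Strip a := ⟨(Complex.I, 0), by simp [stripF_apply]⟩
  have hx : ‖x‖ = 1 := by
    have : ‖(⟨a, -b⟩ : ℂ)‖ = 1 := by
      rw [Complex.norm_eq_sqrt_sq_add_sq]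
      simp [hab]
    simp [norm_Strip, x, this]
  have hy : ‖y‖ = 1 := by simp [norm_Strip, y]
  have hq : QuasiOrth (Strip a) x y := by
    refine quasiOrth_of (Strip a) x y hx
      ((ContinuousLinearMap.snd ℝ ℂ ℝ).comp (LinearMap.ker (stripF a)).subtypeL) ?_ rfl rfl
    intro v
    rw [norm_Strip]
    exact le_max_right _ _
  refine (zetaMinus_le _ ε x y hx hy hq).trans ?_
  rw [norm_Strip]
  refine max_le ?_ ?_
  · rw [Complex.norm_eq_sqrt_sq_add_sq]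
    refine Real.sqrt_le_iff.2 ⟨by linarith, ?_⟩
    have h1 : (x + ε • y : Strip a).1.1.re = a := by simp [x, y]
    have h2 : (x + ε • y : Strip a).1.1.im = ε - b := by simp [x, y]; ring
    rw [h1, h2]; exact h
  · have h1 : (x + ε • y : Strip a).1.2 = 1 := by simp [x, y]
    rw [h1]; simpa using hM

theorem strip_large (ε : ℝ) (hε : 1 < ε) :
    zetaMinus (Strip 0) ε - 1 < betaMinus (Strip 0) ε := by
  obtain ⟨y₀, hy₀⟩ := strip_unit 0
  have h1 : zetaMinus (Strip 0) ε ≤ max 1 (ε - 1) := by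
    refine strip_zeta 0 1 ε _ (by norm_num) (le_max_left _ _) ?_
    have : ε - 1 ≤ max 1 (ε - 1) := le_max_right _ _
    have h0 : 0 ≤ ε - 1 := by linarith
    nlinarith
  have h2 : ε - 1 ≤ betaMinus (Strip 0) ε := by
    refine le_betaMinus _ ε _ y₀ hy₀ ?_
    intro x y hx hy
    have e : (x + ε • y) - (x - ε • y) = (2 * ε) • y := by
      rw [mul_smul, two_smul]; abel
    have := norm_sub_le (x + ε • y) (x - ε • y)
    rw [e, norm_smul, hy, Real.norm_eq_abs, abs_of_pos (by linarith)] at this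
    have m1 := le_max_left ‖x + ε • y‖ ‖x - ε • y‖
    have m2 := le_max_right ‖x + ε • y‖ ‖x - ε • y‖
    linarith
  have : max 1 (ε - 1) < ε := max_lt hε (by linarith)
  linarith

theorem strip_small (ε : ℝ) (h0 : 0 < ε) (h1 : ε ≤ 1) :
    zetaMinus (Strip (√(1 - ε ^ 2 / 4))) ε - 1 < betaMinus (Strip (√(1 - ε ^ 2 / 4))) ε := by
  set a := √(1 - ε ^ 2 / 4) with ha
  have he2 : ε ^ 2 ≤ 1 := by nlinarith
  have ha2 : a ^ 2 = 1 - ε ^ 2 / 4 := Real.sq_sqrt (by linarith)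
  obtain ⟨y₀, hy₀⟩ := strip_unit a
  have hz : zetaMinus (Strip a) ε ≤ 1 :=
    strip_zeta a (ε / 2) ε 1 (by rw [ha2]; ring) le_rfl (by rw [ha2]; nlinarith)
  have hb : ε ^ 2 / 4 ≤ betaMinus (Strip a) ε := by
    refine le_betaMinus _ ε _ y₀ hy₀ ?_
    rintro ⟨⟨z, t⟩, hzt⟩ ⟨⟨w, s⟩, hws⟩ hx hy
    rw [norm_Strip] at hx hy
    simp only [LinearMap.mem_ker, stripF_apply] at hzt hws
    rw [norm_Strip, norm_Strip]
    simp only [Submodule.coe_add, Submodule.coe_sub, Submodule.coe_smul, Prod.smul_mk,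
      Prod.mk_add_mk, Prod.mk_sub_mk, smul_eq_mul]
    simp only at hx hy
    by_contra hcon
    rw [not_le, sub_lt_iff_lt_add, max_lt_iff, max_lt_iff, max_lt_iff] at hcon
    obtain ⟨⟨p1, p2⟩, p3, p4⟩ := hcon
    set δ := ε ^ 2 / 4 with hδ
    have hδ0 : 0 < δ := by positivity
    have hδ1 : δ ≤ 1 := by linarith
    have hδε : δ ≤ ε := by nlinarith
    have par : ‖z + ε • w‖ ^ 2 + ‖z - ε • w‖ ^ 2 = 2 * (‖z‖ ^ 2 + ε ^ 2 * ‖w‖ ^ 2) := by
      have := parallelogram_law_with_norm ℝ z (ε • w)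
      rw [norm_smul, Real.norm_eq_abs, abs_of_pos h0] at this
      nlinarith
    have q1 : ‖z + ε • w‖ ^ 2 < (δ + 1) ^ 2 := by
      have := norm_nonneg (z + ε • w); nlinarith
    have q3 : ‖z - ε • w‖ ^ 2 < (δ + 1) ^ 2 := by
      have := norm_nonneg (z - ε • w); nlinarith
    have q : ‖z‖ ^ 2 + ε ^ 2 * ‖w‖ ^ 2 < 1 + 3 * δ := by nlinarith
    have re_le : ∀ (u : ℂ) (r : ℝ), u.re - a * r = 0 → |r| = 1 → a ^ 2 ≤ ‖u‖ ^ 2 := by
      intro u r hu hr
      have e : u.re ^ 2 = a ^ 2 := by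
        have : u.re = a * r := by linarith
        rw [this, mul_pow, ← sq_abs r, hr]; ring
      rw [Complex.sq_norm, Complex.normSq_apply]
      nlinarith [mul_self_nonneg u.im]
    have hw : a ^ 2 ≤ ‖w‖ ^ 2 := by
      rcases max_choice ‖w‖ |s| with h | h
      · rw [h] at hy; rw [hy]; linarith
      · rw [h] at hy; exact re_le w s hws hy
    rcases max_choice ‖z‖ |t| with h | h
    · rw [h] at hx
      rw [hx] at q
      have : ε ^ 2 * a ^ 2 ≤ ε ^ 2 * ‖w‖ ^ 2 := mul_le_mul_of_nonneg_left hw (by positivity)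
      nlinarith
    · rw [h] at hx
      have hza := re_le z t hzt hx
      have hs : |s| < 1 := by
        rw [abs_lt] at p2 p4
        have ht : t = 1 ∨ t = -1 := by
          rcases abs_cases t with h | h
          · left; linarith [h.1]
          · right; linarith [h.1]
        have : -ε < ε * s ∧ ε * s < ε := by
          rcases ht with rfl | rfl <;> constructor <;> linarith [p2.1, p2.2, p4.1, p4.2]
        rw [abs_lt]
        constructor <;> nlinarith [this.1, this.2]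
      have hw1 : ‖w‖ = 1 := by
        rcases max_choice ‖w‖ |s| with h | h
        · rw [h] at hy; exact hy
        · rw [h] at hy; linarith
      rw [hw1] at q
      nlinarith
  have : 0 < ε ^ 2 / 4 := by positivity
  linarith

theorem strip_minus (ε : ℝ) (h0 : 0 < ε) :
    ∃ a : ℝ, zetaMinus (Strip a) ε - 1 < betaMinus (Strip a) ε := by
  rcases le_or_gt ε 1 with h | h
  · exact ⟨_, strip_small ε h0 h⟩
  · exact ⟨_, strip_large ε h⟩

end Pool.Agent.P.MP_4f9fa7_an
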